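import Mathlib

/-!
# Isomorphism testing versus the number of isomorphism types

The signature has one unary relation symbol.  `K` is the class of finite structures without
marked element, `J` the class of finite structures with at most one marked element.  `K` has one
isomorphism type of each size and `J` at most two; a tester for `K` may answer at once, whereas
every tester for `J` has to look at the whole table.
-/

namespace Pool.Agent.Results.MP_28ce77_lc.ConstantTimeTester

open FirstOrder

/-- The only symbol of the signature: a unary relation symbol. -/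
inductive MarkRel : ℕ → Type
  | mark : MarkRel 1

/-- The signature with one unary relation symbol and nothing else. -/
def lang : Language := ⟨fun _ => Empty, MarkRel⟩

/-- The structure with universe `Fin n` given by the table `T` of the unary relation. -/
@[reducible] def str {n : ℕ} (T : Fin n → Bool) : lang.Structure (Fin n) where
  funMap := fun f => Empty.elim f
  RelMap := fun {_} r => match r with
    | MarkRel.mark => fun xs => T (xs 0) = true

/-- The structure given by `T` satisfies the first-order sentence `φ`. -/
def Mem (φ : lang.Sentence) {n : ℕ} (T : Fin n → Bool) : Prop :=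
  @Language.Sentence.Realize lang (Fin n) (str T) φ

/-- Isomorphism of structures (of the same size). -/
def Iso {n : ℕ} (T T' : Fin n → Bool) : Prop :=
  Nonempty (@Language.Equiv lang (Fin n) (Fin n) (str T) (str T'))

theorem iso_iff {n : ℕ} (T T' : Fin n → Bool) :
    Iso T T' ↔ ∃ e : Equiv.Perm (Fin n), ∀ i, T' (e i) = T i := by
  constructor
  · rintro ⟨e⟩
    let e0 : Fin n ≃ Fin n := @Language.Equiv.toEquiv lang (Fin n) (Fin n) (str T) (str T') e
    refine ⟨e0, fun i => ?_⟩
    have h2 : (T' (e0 i) = true) ↔ (T i = true) :=
      @Language.Equiv.map_rel' lang (Fin n) (Fin n) (str T) (str T') e 1 MarkRel.mark (fun _ => i)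
    cases ha : T' (e0 i) <;> cases hb : T i <;> simp_all
  · rintro ⟨e, he⟩
    refine ⟨@Language.Equiv.mk lang (Fin n) (Fin n) (str T) (str T') e ?_ ?_⟩
    · intro k f
      exact Empty.elim f
    · intro k r xs
      cases r with
      | mark =>
        change (T' (e (xs 0)) = true) ↔ (T (xs 0) = true)
        rw [he]

/-- Isomorphism is an equivalence relation on the `n`-element members of the class of `φ`. -/
def isoSetoid (φ : lang.Sentence) (n : ℕ) : Setoid {T : Fin n → Bool // Mem φ T} where
  r := fun A B => Iso A.1 B.1
  iseqv := by
    constructor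
    · intro A
      exact (iso_iff _ _).2 ⟨1, fun i => rfl⟩
    · intro A B h
      obtain ⟨e, he⟩ := (iso_iff _ _).1 h
      refine (iso_iff _ _).2 ⟨e.symm, fun i => ?_⟩
      rw [← he (e.symm i), Equiv.apply_symm_apply]
    · intro A B C h h'
      obtain ⟨e, he⟩ := (iso_iff _ _).1 h
      obtain ⟨e', he'⟩ := (iso_iff _ _).1 h'
      refine (iso_iff _ _).2 ⟨e.trans e', fun i => ?_⟩
      rw [Equiv.trans_apply, he', he]

/-- `f_L(n)`: the number of isomorphism types of `n`-element members of the class of `φ`. -/
noncomputable def numTypes (φ : lang.Sentence) (n : ℕ) : ℕ :=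
  Nat.card (Quotient (isoSetoid φ n))

/-- A deterministic multitape Turing machine with `k + 1` two-way infinite tapes.  Tape `0` holds
the input, written with the letters `0`, `1` (`some false`, `some true`) and a separator
(`none`).  A state `q` with `answer q = some b` is a halting state with answer `b`.  One step
reads the scanned cells, writes them, changes the state and moves every head by at most one
cell. -/
structure Machine where
  k : ℕ
  Q : Type
  Γ : Type
  finQ : Finite Q
  finΓ : Finite Γ
  blank : Γ
  letter : Option Bool → Γ
  letter_inj : Function.Injective letter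
  letter_ne : ∀ a, letter a ≠ blank
  start : Q
  answer : Q → Option Bool
  δ : Q → (Fin (k + 1) → Γ) → Q × (Fin (k + 1) → Γ) × (Fin (k + 1) → SignType)

/-- Configurations of a machine: state, contents of the tapes, positions of the heads. -/
structure Config (M : Machine) where
  q : M.Q
  tape : Fin (M.k + 1) → ℤ → M.Γ
  pos : Fin (M.k + 1) → ℤ

/-- The initial configuration: the input word `w` on tape `0` in the cells `0, 1, …`, everything
else blank, all heads on cell `0`. -/
def init (M : Machine) (w : List (Option Bool)) : Config M where
  q := M.start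
  tape := fun j c => if j = 0 ∧ 0 ≤ c then
    (match w[c.toNat]? with
      | some a => M.letter a
      | none => M.blank) else M.blank
  pos := fun _ => 0

/-- One step of computation; nothing happens in a halting state. -/
def step (M : Machine) (C : Config M) : Config M :=
  match M.answer C.q with
  | some _ => C
  | none =>
    let r := M.δ C.q (fun j => C.tape j (C.pos j))
    { q := r.1
      tape := fun j => Function.update (C.tape j) (C.pos j) (r.2.1 j)
      pos := fun j => C.pos j + ((r.2.2 j : SignType) : ℤ) }

/-- The configuration after `t` steps on input `w`. -/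
def run (M : Machine) (w : List (Option Bool)) (t : ℕ) : Config M := (step M)^[t] (init M w)

/-- On input `w` the machine `M` halts after exactly `t` steps, with answer `b`. -/
def HaltsAt (M : Machine) (w : List (Option Bool)) (t : ℕ) (b : Bool) : Prop :=
  M.answer (run M w t).q = some b ∧ ∀ s < t, M.answer (run M w s).q = none

/-- The input word for a pair of `n`-element structures: the full table of the first structure,
a separator, the full table of the second structure, a separator. -/
def enc {n : ℕ} (T T' : Fin n → Bool) : List (Option Bool) :=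
  (List.ofFn T).map some ++ [none] ++ ((List.ofFn T').map some ++ [none])

/-- `M` is an isomorphism testing algorithm for the class of `φ`. -/
def IsTester (M : Machine) (φ : lang.Sentence) : Prop :=
  ∀ (n : ℕ) (T T' : Fin n → Bool), Mem φ T → Mem φ T' →
    ∃ (t : ℕ) (b : Bool), HaltsAt M (enc T T') t b ∧ (b = true ↔ Iso T T')

/-- `m_L(M, n)`: the largest number of steps `M` uses on a pair of `n`-element members of the
class of `φ`. -/
noncomputable def worst (M : Machine) (φ : lang.Sentence) (n : ℕ) : ℕ :=
  sSup {t : ℕ | ∃ T T' : Fin n → Bool, Mem φ T ∧ Mem φ T' ∧ ∃ b, HaltsAt M (enc T T') t b}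

/-! ## The two classes -/

/-- The atomic formula saying that the `i`-th bound variable is marked. -/
def marked {m : ℕ} (i : Fin m) : lang.BoundedFormula Empty m :=
  Language.BoundedFormula.rel (L := lang) (MarkRel.mark) (fun _ => Language.Term.var (Sum.inr i))

/-- The sentence `∀ x, ¬ mark x`. -/
def φK : lang.Sentence :=
  Language.BoundedFormula.all ((marked (0 : Fin 1)).imp Language.BoundedFormula.falsum)

/-- The sentence `∀ x, ∀ y, mark x → mark y → x = y`. -/
def φJ : lang.Sentence :=
  Language.BoundedFormula.all (Language.BoundedFormula.all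
    ((marked (0 : Fin 2)).imp ((marked (1 : Fin 2)).imp
      (Language.BoundedFormula.equal (Language.Term.var (Sum.inr 0))
        (Language.Term.var (Sum.inr 1))))))

theorem mem_K {n : ℕ} (T : Fin n → Bool) : Mem φK T ↔ ∀ i, T i = false := by
  let _ := str T
  have : Mem φK T ↔ ∀ i : Fin n, (T i = true) → False := by
    unfold Mem φK Language.Sentence.Realize Language.Formula.Realize
    simp only [Language.BoundedFormula.Realize, marked]
    constructor
    · intro h i hi
      exact h i hi
    · intro h i hi
      exact h i hi
  rw [this]
  refine forall_congr' fun i => ?_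
  cases T i <;> simp

theorem mem_J {n : ℕ} (T : Fin n → Bool) :
    Mem φJ T ↔ ∀ i j, T i = true → T j = true → i = j := by
  let _ := str T
  unfold Mem φJ Language.Sentence.Realize Language.Formula.Realize
  simp only [Language.BoundedFormula.Realize, marked]
  constructor
  · intro h i j hi hj
    exact h i j hi hj
  · intro h i j hi hj
    exact h i j hi hj

theorem iso_of_K {n : ℕ} {T T' : Fin n → Bool} (h : Mem φK T) (h' : Mem φK T') : Iso T T' := by
  rw [mem_K] at h h'
  exact (iso_iff _ _).2 ⟨1, fun i => by rw [h, h']⟩

theorem iso_of_J {n : ℕ} {T T' : Fin n → Bool} (h : Mem φJ T) (h' : Mem φJ T')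
    (hh : (∃ i, T i = true) ↔ (∃ i, T' i = true)) : Iso T T' := by
  rw [mem_J] at h h'
  by_cases hT : ∃ i, T i = true
  · obtain ⟨i, hi⟩ := hT
    obtain ⟨j, hj⟩ := hh.1 ⟨i, hi⟩
    refine (iso_iff _ _).2 ⟨Equiv.swap i j, fun a => ?_⟩
    by_cases ha : a = i
    · subst ha
      rw [Equiv.swap_apply_left, hi, hj]
    · by_cases hb : a = j
      · subst hb
        rw [Equiv.swap_apply_right]
        have h1 : T a = false := by
          by_contra hc
          exact ha (h a i (by simpa using hc) hi)
        have h2 : T' i = false := by
          by_contra hc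
          exact ha (h' a i hj (by simpa using hc))
        rw [h1, h2]
      · rw [Equiv.swap_apply_of_ne_of_ne ha hb]
        have h1 : T a = false := by
          by_contra hc
          exact ha (h a i (by simpa using hc) hi)
        have h2 : T' a = false := by
          by_contra hc
          exact hb (h' a j (by simpa using hc) hj)
        rw [h1, h2]
  · have hT' : ¬ ∃ i, T' i = true := fun hc => hT (hh.2 hc)
    push Not at hT hT'
    refine (iso_iff _ _).2 ⟨1, fun a => ?_⟩
    have h1 := hT a
    have h2 := hT' a
    simp only [Bool.not_eq_true] at h1 h2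
    rw [Equiv.Perm.one_apply, h1, h2]

theorem numTypes_K (n : ℕ) : 1 ≤ numTypes φK n := by
  unfold numTypes
  have hne : Nonempty (Quotient (isoSetoid φK n)) :=
    ⟨Quotient.mk (isoSetoid φK n) ⟨fun _ => false, (mem_K _).2 fun _ => rfl⟩⟩
  exact Nat.one_le_iff_ne_zero.2 (Nat.card_ne_zero.2 ⟨hne, inferInstance⟩)

theorem numTypes_J (n : ℕ) : numTypes φJ n ≤ 2 := by
  classical
  unfold numTypes
  have hcard : Nat.card Bool = 2 := by simp
  rw [← hcard]
  let g : Quotient (isoSetoid φJ n) → Bool :=
    Quotient.lift (s := isoSetoid φJ n) (fun A => decide (∃ i, A.1 i = true)) (by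
      intro A B h
      obtain ⟨e, he⟩ := (iso_iff _ _).1 h
      refine decide_eq_decide.2 ⟨?_, ?_⟩
      · rintro ⟨i, hi⟩
        exact ⟨e i, by rw [he, hi]⟩
      · rintro ⟨i, hi⟩
        refine ⟨e.symm i, ?_⟩
        rw [← he, Equiv.apply_symm_apply, hi])
  refine Nat.card_le_card_of_injective g ?_
  intro a b hab
  induction a using Quotient.inductionOn with | _ A =>
  induction b using Quotient.inductionOn with | _ B =>
  have h1 : decide (∃ i, A.1 i = true) = decide (∃ i, B.1 i = true) := hab
  exact Quotient.sound (s := isoSetoid φJ n)
    (iso_of_J A.2 B.2 (decide_eq_decide.1 h1))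

/-! ## The constant-time tester for `K` -/

/-- The machine that answers `true` without any step. -/
def yes : Machine where
  k := 0
  Q := Unit
  Γ := Option (Option Bool)
  finQ := inferInstance
  finΓ := inferInstance
  blank := none
  letter := some
  letter_inj := Option.some_injective _
  letter_ne := fun a => Option.some_ne_none a
  start := ()
  answer := fun _ => some true
  δ := fun q g => (q, g, fun _ => 0)

theorem yes_halts (w : List (Option Bool)) : HaltsAt yes w 0 true :=
  ⟨rfl, fun s hs => absurd hs (Nat.not_lt_zero s)⟩

theorem haltsAt_unique {M : Machine} {w : List (Option Bool)} {t t' : ℕ} {b b' : Bool}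
    (h : HaltsAt M w t b) (h' : HaltsAt M w t' b') : t = t' ∧ b = b' := by
  have htt : t = t' := by
    rcases lt_trichotomy t t' with hlt | heq | hgt
    · have := h'.2 t hlt
      rw [h.1] at this
      exact absurd this (Option.some_ne_none b)
    · exact heq
    · have := h.2 t' hgt
      rw [h'.1] at this
      exact absurd this (Option.some_ne_none b')
  subst htt
  refine ⟨rfl, ?_⟩
  have := h.1.symm.trans h'.1
  exact Option.some.inj this

theorem yes_tester : IsTester yes φK := by
  intro n T T' h h'
  exact ⟨0, true, yes_halts _, by simp [iso_of_K h h']⟩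

theorem yes_worst (n : ℕ) : worst yes φK n = 0 := by
  unfold worst
  apply Nat.le_zero.1
  apply csSup_le'
  rintro t ⟨T, T', _, _, b, hb⟩
  exact (haltsAt_unique hb (yes_halts _)).1.le

/-! ## The reading lower bound for `J` -/

/-- Two configurations that differ at most in the contents of cell `N` of tape `0`. -/
def Agree {M : Machine} (N : ℤ) (C D : Config M) : Prop :=
  C.q = D.q ∧ C.pos = D.pos ∧ ∀ j c, (j ≠ 0 ∨ c ≠ N) → C.tape j c = D.tape j c

theorem step_pos_le (M : Machine) (C : Config M) (j : Fin (M.k + 1)) :
    (step M C).pos j ≤ C.pos j + 1 := by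
  unfold step
  cases hq : M.answer C.q with
  | some b => simp
  | none =>
    simp only
    have : ∀ s : SignType, ((s : SignType) : ℤ) ≤ 1 := by
      intro s
      cases s <;> simp
    exact add_le_add_right (this _) _

theorem run_pos_le (M : Machine) (w : List (Option Bool)) (t : ℕ) (j : Fin (M.k + 1)) :
    (run M w t).pos j ≤ t := by
  induction t with
  | zero => simp [run, init]
  | succ t ih =>
    have h := step_pos_le M (run M w t) j
    have h2 : run M w (t + 1) = step M (run M w t) := by
      unfold run
      rw [Function.iterate_succ_apply']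
    rw [h2]
    push_cast
    linarith

theorem step_agree {M : Machine} {N : ℤ} {C D : Config M} (h : Agree N C D)
    (hN : C.pos 0 < N) : Agree N (step M C) (step M D) := by
  obtain ⟨hq, hp, ht⟩ := h
  have hread : (fun j => C.tape j (C.pos j)) = fun j => D.tape j (D.pos j) := by
    funext j
    rw [← hp]
    apply ht
    by_cases hj : j = 0
    · subst hj
      exact Or.inr (ne_of_lt hN)
    · exact Or.inl hj
  unfold step
  rw [← hq, ← hread, ← hp]
  cases hans : M.answer C.q with
  | some b => exact ⟨hq, hp, ht⟩
  | none =>
    refine ⟨rfl, rfl, ?_⟩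
    intro j c hjc
    simp only
    by_cases hc : c = C.pos j
    · subst hc
      rw [Function.update_self, Function.update_self]
    · rw [Function.update_of_ne hc, Function.update_of_ne hc]
      exact ht j c hjc

theorem run_agree {M : Machine} {N : ℕ} {w w' : List (Option Bool)}
    (h : ∀ i, i ≠ N → w[i]? = w'[i]?) :
    ∀ t : ℕ, t ≤ N → Agree (N : ℤ) (run M w t) (run M w' t) := by
  intro t
  induction t with
  | zero =>
    intro _
    refine ⟨rfl, rfl, ?_⟩
    intro j c hjc
    change (init M w).tape j c = (init M w').tape j c
    unfold init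
    simp only
    by_cases hj : j = 0 ∧ 0 ≤ c
    · rw [if_pos hj, if_pos hj]
      have hc : c ≠ (N : ℤ) := by
        rcases hjc with h1 | h1
        · exact absurd hj.1 h1
        · exact h1
      have hc' : c.toNat ≠ N := by
        intro hcc
        apply hc
        rw [← hcc, Int.toNat_of_nonneg hj.2]
      rw [h _ hc']
    · rw [if_neg hj, if_neg hj]
  | succ t ih =>
    intro hle
    have h1 := ih (by omega)
    have e1 : ∀ v, run M v (t + 1) = step M (run M v t) := by
      intro v
      unfold run
      rw [Function.iterate_succ_apply']
    rw [e1, e1]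
    apply step_agree h1
    have := run_pos_le M w t 0
    have h3 : (t : ℤ) < N := by exact_mod_cast hle
    linarith

/-- The table with the last element marked. -/
def lastMark (n : ℕ) : Fin n → Bool := fun i => decide (i.1 + 1 = n)

theorem append_agree {α : Type} (pre l l' : List α) (i : ℕ)
    (h : pre.length ≤ i → l[i - pre.length]? = l'[i - pre.length]?) :
    (pre ++ l)[i]? = (pre ++ l')[i]? := by
  by_cases h1 : i < pre.length
  · rw [List.getElem?_append_left h1, List.getElem?_append_left h1]
  · rw [List.getElem?_append_right (by omega), List.getElem?_append_right (by omega)]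
    exact h (by omega)

theorem enc_agree (n : ℕ) (i : ℕ) (hi : i ≠ 2 * n) :
    (enc (fun _ : Fin n => false) (fun _ : Fin n => false))[i]? =
      (enc (fun _ : Fin n => false) (lastMark n))[i]? := by
  unfold enc
  apply append_agree
  intro hle
  have hlen : ((List.ofFn (fun _ : Fin n => false)).map some ++ [none]).length = n + 1 := by simp
  rw [hlen] at hle ⊢
  have hl1 : ((List.ofFn (fun _ : Fin n => false)).map some).length = n := by simp
  have hl2 : ((List.ofFn (lastMark n)).map some).length = n := by simp
  by_cases h2 : i - (n + 1) < n
  · rw [List.getElem?_append_left (by omega), List.getElem?_append_left (by omega)]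
    simp only [List.getElem?_map, List.getElem?_ofFn, h2, dite_true]
    have h3 : i - (n + 1) + 1 ≠ n := by omega
    simp [lastMark, h3]
  · rw [List.getElem?_append_right (by omega), List.getElem?_append_right (by omega), hl1, hl2]

theorem lower (β : Machine) (hβ : IsTester β φJ) (n : ℕ) (hn : 1 ≤ n) :
    2 * n ≤ worst β φJ n := by
  have m0 : Mem φJ (fun _ : Fin n => false) := by
    rw [mem_J]
    intro i j h
    exact absurd h (by simp)
  have m1 : Mem φJ (lastMark n) := by
    rw [mem_J]
    intro i j h h'
    unfold lastMark at h h'
    simp only [decide_eq_true_eq] at h h'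
    exact Fin.ext (by omega)
  obtain ⟨t0, b0, ht0, hb0⟩ := hβ n _ _ m0 m0
  obtain ⟨t1, b1, ht1, hb1⟩ := hβ n _ _ m0 m1
  have hb0' : b0 = true := hb0.2 ((iso_iff _ _).2 ⟨1, fun i => rfl⟩)
  have hb1' : b1 = false := by
    by_contra hc
    have : b1 = true := by simpa using hc
    obtain ⟨e, he⟩ := (iso_iff _ _).1 (hb1.1 this)
    have h4 := he (e.symm ⟨n - 1, by omega⟩)
    rw [Equiv.apply_symm_apply] at h4
    have h5 : lastMark n ⟨n - 1, by omega⟩ = true := by
      unfold lastMark
      simp only [decide_eq_true_eq]
      omega
    rw [h5] at h4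
    exact absurd h4 (by simp)
  have hge : 2 * n ≤ t0 := by
    by_contra hlt
    push Not at hlt
    have hag := fun t (ht : t ≤ 2 * n) =>
      run_agree (M := β) (N := 2 * n) (fun i hi => enc_agree n i hi) t ht
    have h6 : HaltsAt β (enc (fun _ : Fin n => false) (lastMark n)) t0 b0 := by
      refine ⟨?_, fun s hs => ?_⟩
      · rw [← (hag t0 hlt.le).1]
        exact ht0.1
      · rw [← (hag s (by omega)).1]
        exact ht0.2 s hs
    have h7 := (haltsAt_unique h6 ht1).2
    rw [hb0', hb1'] at h7
    exact absurd h7 (by simp)
  refine hge.trans ?_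
  unfold worst
  apply le_csSup
  · -- the set of running times is finite
    have hfin : {t : ℕ | ∃ T T' : Fin n → Bool, Mem φJ T ∧ Mem φJ T' ∧
        ∃ b, HaltsAt β (enc T T') t b}.Finite := by
      classical
      have hsub : {t : ℕ | ∃ T T' : Fin n → Bool, Mem φJ T ∧ Mem φJ T' ∧
          ∃ b, HaltsAt β (enc T T') t b} ⊆
          Set.range (fun P : (Fin n → Bool) × (Fin n → Bool) =>
            if h : ∃ t, ∃ b, HaltsAt β (enc P.1 P.2) t b then h.choose else 0) := by
        rintro t ⟨T, T', _, _, b, hb⟩
        refine ⟨(T, T'), ?_⟩
        have hex : ∃ t, ∃ b, HaltsAt β (enc T T') t b := ⟨t, b, hb⟩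
        simp only
        rw [dif_pos hex]
        obtain ⟨b', hb'⟩ := hex.choose_spec
        exact (haltsAt_unique hb' hb).1
      exact (Set.finite_range _).subset hsub
    exact hfin.bddAbove
  · exact ⟨_, _, m0, m0, b0, ht0⟩

/-- There are first-order definable classes `J`, `K` of finite structures, with
`f_J(n) ≤ q(f_K(n))` for a polynomial `q`, and an isomorphism testing algorithm `α` for `K` such
that for no polynomial `p` and no isomorphism testing algorithm `β` for `J` the inequality
`m_J(β, n) ≤ p(m_K(α, n))` holds for all sufficiently large `n`. -/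
theorem result : ∃ J K : lang.Sentence,
    (∃ q : Polynomial ℝ, ∀ n : ℕ, (numTypes J n : ℝ) ≤ q.eval (numTypes K n : ℝ)) ∧
    ∃ α : Machine, IsTester α K ∧ ∀ p : Polynomial ℝ, ∀ β : Machine, IsTester β J →
      ¬ ∀ᶠ n : ℕ in Filter.atTop, (worst β J n : ℝ) ≤ p.eval (worst α K n : ℝ) := by
  refine ⟨φJ, φK, ⟨2 * Polynomial.X, fun n => ?_⟩, yes, yes_tester, ?_⟩
  · have h1 : (numTypes φJ n : ℝ) ≤ 2 := by exact_mod_cast numTypes_J n
    have h2 : (1 : ℝ) ≤ numTypes φK n := by exact_mod_cast numTypes_K n
    simp only [Polynomial.eval_mul, Polynomial.eval_ofNat, Polynomial.eval_X]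
    linarith
  · intro p β hβ hev
    obtain ⟨N, hN⟩ := Filter.eventually_atTop.1 hev
    obtain ⟨m, hm⟩ := exists_nat_gt (p.eval 0)
    have h1 := hN (max N (m + 1)) (le_max_left _ _)
    rw [yes_worst] at h1
    have h2 := lower β hβ (max N (m + 1)) (by have := le_max_right N (m + 1); omega)
    have h3 : m < worst β φJ (max N (m + 1)) := by
      have := le_max_right N (m + 1)
      omega
    have h4 : (m : ℝ) < worst β φJ (max N (m + 1)) := by exact_mod_cast h3
    simp only [Nat.cast_zero] at h1
    linarith

end Pool.Agent.Results.MP_28ce77_lc.ConstantTimeTester
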